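import Pool.Agent.Q78.WI.Stm

/-! Jobs C6 and C8 of project WI: joint continuity of `av`, `cv`, measurability at a random
time. -/

open MeasureTheory ProbabilityTheory Filter Topology Set
open scoped NNReal InnerProductSpace Matrix

namespace Pool.Agent.Q65.WI

open Pool.Agent.Q78.WI

universe u v

section aux

variable {H : Type u} [NormedAddCommGroup H] [InnerProductSpace ℝ H]

lemma cin {A : Type*} [TopologicalSpace A] {D : Set A} {F : A → H →L[ℝ] H} {a b : A → H}
    (hF : ContinuousOn F D) (ha : ContinuousOn a D) (hb : ContinuousOn b D) :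
    ContinuousOn (fun p => ⟪F p (a p), b p⟫_ℝ) D :=
  ContinuousOn.inner (𝕜 := ℝ) (hF.clm_apply ha) hb

lemma ctq {A : Type*} [TopologicalSpace A] {D : Set A} {d : ℕ}
    {ψ : A → Matrix (Fin d) (Fin d) ℝ} {F : A → H →L[ℝ] H} {a b : A → Fin d → H}
    (hψ : ∀ i j, ContinuousOn (fun p => ψ p i j) D) (hF : ContinuousOn F D)
    (ha : ∀ i, ContinuousOn (fun p => a p i) D) (hb : ∀ i, ContinuousOn (fun p => b p i) D) :
    ContinuousOn (fun p => ∑ i, ∑ j, ψ p i j * ⟪F p (a p i), b p j⟫_ℝ) D :=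
  continuousOn_finsetSum _ fun i _ => continuousOn_finsetSum _ fun j _ =>
    (hψ i j).mul (cin hF (ha i) (hb j))

lemma cdr {A : Type*} [TopologicalSpace A] {D : Set A} {d : ℕ} (α : ℝ) (Q : H →L[ℝ] H)
    {ψ : A → Matrix (Fin d) (Fin d) ℝ} {F : A → H →L[ℝ] H} {a b : A → Fin d → H}
    (hψ : ∀ i j, ContinuousOn (fun p => ψ p i j) D) (hF : ContinuousOn F D)
    (ha : ∀ i, ContinuousOn (fun p => a p i) D) (hb : ∀ i, ContinuousOn (fun p => b p i) D) :
    ContinuousOn (fun p => dr α Q (F p) (ψ p) (a p) (b p)) D := by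
  unfold dr tq
  have h1 := ctq hψ hF ha ha
  have h2 := ctq hψ (F := fun _ => Q) continuousOn_const ha ha
  have h3 := ctq hψ hF hb ha
  refine h1.neg.rexp.mul ((((continuousOn_const.mul h2).neg).sub (continuousOn_const.mul h3)).add
    (continuousOn_const.mul ?_))
  exact continuousOn_finsetSum _ fun i _ => continuousOn_finsetSum _ fun j _ =>
    continuousOn_finsetSum _ fun k _ => continuousOn_finsetSum _ fun l _ =>
    ((hψ i j).mul (hψ k l)).mul ((cin hF (ha i) (ha k)).mul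
      (cin (F := fun _ => Q) continuousOn_const (ha j) (ha l)))

end aux

/-- Job C6. -/
theorem c6 (hC2 : S_C2.{u}) : S_C6.{u} := by
  intro H _ _ _ T hT Q hQ α d g y u hu X hX
  obtain ⟨-, h2, h3, h4⟩ := hC2 H T hT Q hQ α d g u hu
  have hfst : ∀ {f : ℝ → ℝ}, ContinuousOn f (Icc (0 : ℝ) 1) →
      ContinuousOn (fun p : ℝ × ℝ => f p.1) (Icc (0 : ℝ) 1 ×ˢ univ) := fun hf =>
    hf.comp continuousOn_fst (fun p hp => hp.1)
  have hfstH : ∀ {f : ℝ → H}, ContinuousOn f (Icc (0 : ℝ) 1) →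
      ContinuousOn (fun p : ℝ × ℝ => f p.1) (Icc (0 : ℝ) 1 ×ˢ univ) := fun hf =>
    hf.comp continuousOn_fst (fun p hp => hp.1)
  have hXc : ContinuousOn (fun p : ℝ × ℝ => X p.2) (Icc (0 : ℝ) 1 ×ˢ univ) :=
    (hX.comp continuous_snd).continuousOn
  constructor
  · unfold av tq
    exact (hfst h3).mul (ctq (ψ := fun p : ℝ × ℝ => psi T Q g u p.1)
      (F := fun p : ℝ × ℝ => X p.2) (a := fun p i => T (1 - p.1) (g i))
      (b := fun p i => T (1 - p.1) (g i)) (fun i j => hfst (h2 i j)) hXc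
      (fun i => hfstH (h4 (g i))) (fun i => hfstH (h4 (g i)))).neg.rexp
  · unfold cv
    exact (hfst h3).mul (cdr α Q (ψ := fun p : ℝ × ℝ => psi T Q g u p.1)
      (F := fun p : ℝ × ℝ => X p.2) (a := fun p i => T (1 - p.1) (g i))
      (b := fun p i => T (1 - p.1) (y i)) (fun i j => hfst (h2 i j)) hXc
      (fun i => hfstH (h4 (g i))) (fun i => hfstH (h4 (y i))))

/-- Job C8. -/
theorem c8 (hC6 : S_C6.{u}) : S_C8.{u, v} := by
  intro H _ _ _ T hT Q hQ α d g u hu Ω _ X hXc hXm σ hσ hσ1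
  have hav : ∀ (s : ℝ) (t : ℝ≥0), Measurable fun ω => av α T Q g u (X t ω) s := by
    intro s t
    unfold av tq
    refine measurable_const.mul (Measurable.exp (Measurable.neg ?_))
    exact Finset.measurable_sum _ fun i _ => Finset.measurable_sum _ fun j _ =>
      measurable_const.mul (hXm t _ _)
  have hc : ∀ ω, Continuous fun t : ℝ≥0 => av α T Q g u (X t ω) ((min t 1 : ℝ≥0) : ℝ) := by
    intro ω
    have hX' : Continuous fun r : ℝ => X r.toNNReal ω := (hXc ω).comp continuous_real_toNNReal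
    have h := (hC6 H T hT Q hQ α d g g u hu (fun r => X r.toNNReal ω) hX').1
    have hm : Continuous fun t : ℝ≥0 => (((min t 1 : ℝ≥0) : ℝ), (t : ℝ)) := by fun_prop
    have h' := h.comp_continuous hm (fun t => ⟨⟨NNReal.coe_nonneg _, by
      have : min t 1 ≤ (1 : ℝ≥0) := min_le_right _ _
      exact_mod_cast this⟩, mem_univ _⟩)
    refine h'.congr fun t => ?_
    simp only [Function.comp_apply, Real.toNNReal_coe]
  have hu' := measurable_uncurry_of_continuous_of_measurable
    (u := fun (t : ℝ≥0) (ω : Ω) => av α T Q g u (X t ω) ((min t 1 : ℝ≥0) : ℝ)) hc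
    (fun t => hav _ t)
  have h := hu'.comp (hσ.prodMk measurable_id)
  have he : (Function.uncurry (fun (t : ℝ≥0) (ω : Ω) =>
      av α T Q g u (X t ω) ((min t 1 : ℝ≥0) : ℝ)) ∘ fun ω => (σ ω, id ω))
      = fun ω => av α T Q g u (X (σ ω) ω) (σ ω) := by
    funext ω
    simp only [Function.comp_apply, Function.uncurry_apply_pair, id_eq, min_eq_left (hσ1 ω)]
  rw [he] at h
  exact h

end Pool.Agent.Q65.WI
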