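import Pool.Agent.Q78.WI.Stm

/-! Job C7 of project WI: bounds for `av`, `cv`. -/

open MeasureTheory ProbabilityTheory Filter Topology Set
open scoped NNReal InnerProductSpace Matrix

namespace Pool.Agent.Q65.WI

open Pool.Agent.Q78.WI

universe u v

section aux

variable {H : Type u} [NormedAddCommGroup H] [InnerProductSpace ℝ H]

open scoped MatrixOrder Matrix.Norms.L2Operator in
lemma fact {d : ℕ} {ψ : Matrix (Fin d) (Fin d) ℝ} (hψ : ψ.PosSemidef) :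
    ∃ B : Matrix (Fin d) (Fin d) ℝ, ψ = Bᴴ * B := by
  obtain ⟨B, hB⟩ := CStarAlgebra.nonneg_iff_eq_star_mul_self.mp hψ.nonneg
  exact ⟨B, hB⟩

lemma tq_nonneg {d : ℕ} {ψ : Matrix (Fin d) (Fin d) ℝ} (hψ : ψ.PosSemidef) {S : H →L[ℝ] H}
    (hS : S.IsPositive) (g : Fin d → H) : 0 ≤ tq ψ S g := by
  obtain ⟨B, hB⟩ := fact hψ
  have h1 : tq ψ S g = ∑ k, ⟪S (∑ i, B k i • g i), ∑ j, B k j • g j⟫_ℝ := by
    unfold tq
    have h2 : ∀ i j, ψ i j * ⟪S (g i), g j⟫_ℝ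
        = ∑ k, B k i * (B k j * ⟪S (g i), g j⟫_ℝ) := by
      intro i j
      rw [hB, Matrix.mul_apply, Finset.sum_mul]
      refine Finset.sum_congr rfl fun k _ => ?_
      rw [Matrix.conjTranspose_apply, star_trivial, mul_assoc]
    have h3 : ∀ k, ⟪S (∑ i, B k i • g i), ∑ j, B k j • g j⟫_ℝ
        = ∑ i, ∑ j, B k i * (B k j * ⟪S (g i), g j⟫_ℝ) := by
      intro k
      rw [map_sum, sum_inner]
      refine Finset.sum_congr rfl fun i _ => ?_
      rw [inner_sum]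
      refine Finset.sum_congr rfl fun j _ => ?_
      rw [map_smul, real_inner_smul_left, real_inner_smul_right]
    simp_rw [h2, h3]
    rw [Finset.sum_comm]
    conv_lhs =>
      enter [2, j]
      rw [Finset.sum_comm]
    rw [Finset.sum_comm]
    refine Finset.sum_congr rfl fun k _ => ?_
    rw [Finset.sum_comm]
  rw [h1]
  exact Finset.sum_nonneg fun k _ => hS.inner_nonneg_left _

lemma abs_inner_le (S : H →L[ℝ] H) {K M : ℝ} (hK : ‖S‖ ≤ K) (hM : 0 ≤ M) {x z : H}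
    (hx : ‖x‖ ≤ M) (hz : ‖z‖ ≤ M) : |⟪S x, z⟫_ℝ| ≤ K * M * M := by
  have h0 : 0 ≤ K := (norm_nonneg S).trans hK
  calc |⟪S x, z⟫_ℝ| ≤ ‖S x‖ * ‖z‖ := abs_real_inner_le_norm _ _
    _ ≤ (K * M) * M := by
        refine mul_le_mul ?_ hz (norm_nonneg _) (by positivity)
        exact (S.le_opNorm x).trans (mul_le_mul hK hx (norm_nonneg _) h0)

lemma abs_tq_le {d : ℕ} {ψ : Matrix (Fin d) (Fin d) ℝ} (S : H →L[ℝ] H) {K M : ℝ}
    (hK : ‖S‖ ≤ K) (hM : 0 ≤ M) (hψ : ∀ i j, |ψ i j| ≤ M) {x z : Fin d → H}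
    (hx : ∀ i, ‖x i‖ ≤ M) (hz : ∀ i, ‖z i‖ ≤ M) :
    |∑ i, ∑ j, ψ i j * ⟪S (x i), z j⟫_ℝ| ≤ ∑ _i : Fin d, ∑ _j : Fin d, M * (K * M * M) := by
  refine (Finset.abs_sum_le_sum_abs _ _).trans (Finset.sum_le_sum fun i _ => ?_)
  refine (Finset.abs_sum_le_sum_abs _ _).trans (Finset.sum_le_sum fun j _ => ?_)
  rw [abs_mul]
  exact mul_le_mul (hψ i j) (abs_inner_le S hK hM (hx i) (hz j)) (abs_nonneg _) hM

end aux

/-- Job C7. -/
theorem c7 (hC2 : S_C2.{u}) : S_C7.{u} := by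
  intro H _ _ _ T hT Q hQ α d g y u hu
  obtain ⟨h1, h2, h3, h4⟩ := hC2 H T hT Q hQ α d g u hu
  have hcont : ContinuousOn (fun s => |fac α T Q g u s| + (∑ i, ∑ j, |psi T Q g u s i j|)
      + (∑ i, ‖T (1 - s) (g i)‖) + ∑ i, ‖T (1 - s) (y i)‖) (Icc (0 : ℝ) 1) := by
    refine ((h3.abs.add ?_).add ?_).add ?_
    · exact continuousOn_finsetSum _ fun i _ => continuousOn_finsetSum _ fun j _ => (h2 i j).abs
    · exact continuousOn_finsetSum _ fun i _ => (h4 (g i)).norm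
    · exact continuousOn_finsetSum _ fun i _ => (h4 (y i)).norm
  obtain ⟨M, hM⟩ := isCompact_Icc.exists_bound_of_continuousOn hcont
  have hM' : ∀ s ∈ Icc (0 : ℝ) 1, |fac α T Q g u s| + (∑ i, ∑ j, |psi T Q g u s i j|)
      + (∑ i, ‖T (1 - s) (g i)‖) + ∑ i, ‖T (1 - s) (y i)‖ ≤ M := fun s hs =>
    (le_abs_self _).trans (hM s hs)
  have e1 : ∀ s, 0 ≤ ∑ i, ∑ j, |psi T Q g u s i j| := fun s =>
    Finset.sum_nonneg fun i _ => Finset.sum_nonneg fun j _ => abs_nonneg _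
  have e2 : ∀ s, 0 ≤ ∑ i, ‖T (1 - s) (g i)‖ := fun s => Finset.sum_nonneg fun i _ => norm_nonneg _
  have e3 : ∀ s, 0 ≤ ∑ i, ‖T (1 - s) (y i)‖ := fun s => Finset.sum_nonneg fun i _ => norm_nonneg _
  have hfac : ∀ s ∈ Icc (0 : ℝ) 1, |fac α T Q g u s| ≤ M := fun s hs => by
    have := hM' s hs; have := e1 s; have := e2 s; have := e3 s; linarith
  have hpsi : ∀ s ∈ Icc (0 : ℝ) 1, ∀ i j, |psi T Q g u s i j| ≤ M := fun s hs i j => by
    have a1 : |psi T Q g u s i j| ≤ ∑ j, |psi T Q g u s i j| :=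
      Finset.single_le_sum (f := fun j => |psi T Q g u s i j|) (fun _ _ => abs_nonneg _)
        (Finset.mem_univ j)
    have a2 : ∑ j, |psi T Q g u s i j| ≤ ∑ i, ∑ j, |psi T Q g u s i j| :=
      Finset.single_le_sum (f := fun i => ∑ j, |psi T Q g u s i j|)
        (fun _ _ => Finset.sum_nonneg fun _ _ => abs_nonneg _) (Finset.mem_univ i)
    have := hM' s hs; have := e2 s; have := e3 s; have := abs_nonneg (fac α T Q g u s); linarith
  have hg : ∀ s ∈ Icc (0 : ℝ) 1, ∀ i, ‖T (1 - s) (g i)‖ ≤ M := fun s hs i => by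
    have a1 : ‖T (1 - s) (g i)‖ ≤ ∑ i, ‖T (1 - s) (g i)‖ :=
      Finset.single_le_sum (f := fun i => ‖T (1 - s) (g i)‖) (fun _ _ => norm_nonneg _)
        (Finset.mem_univ i)
    have := hM' s hs; have := e1 s; have := e3 s; have := abs_nonneg (fac α T Q g u s); linarith
  have hy : ∀ s ∈ Icc (0 : ℝ) 1, ∀ i, ‖T (1 - s) (y i)‖ ≤ M := fun s hs i => by
    have a1 : ‖T (1 - s) (y i)‖ ≤ ∑ i, ‖T (1 - s) (y i)‖ :=
      Finset.single_le_sum (f := fun i => ‖T (1 - s) (y i)‖) (fun _ _ => norm_nonneg _)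
        (Finset.mem_univ i)
    have := hM' s hs; have := e1 s; have := e2 s; have := abs_nonneg (fac α T Q g u s); linarith
  have hM0 : 0 ≤ M := (abs_nonneg _).trans (hfac 0 ⟨le_rfl, zero_le_one⟩)
  have hexp : ∀ s ∈ Icc (0 : ℝ) 1, ∀ S : H →L[ℝ] H, S.IsPositive →
      |Real.exp (-tq (psi T Q g u s) S (fun i => T (1 - s) (g i)))| ≤ 1 := by
    intro s hs S hS
    rw [abs_of_pos (Real.exp_pos _)]
    exact Real.exp_le_one_iff.2 (neg_nonpos.2 (tq_nonneg (h1 s hs).2 hS _))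
  refine ⟨⟨M, fun s hs S hS => ?_⟩, fun K => ?_⟩
  · unfold av
    rw [abs_mul]
    calc |fac α T Q g u s| * |Real.exp (-tq (psi T Q g u s) S (fun i => T (1 - s) (g i)))|
        ≤ M * 1 := mul_le_mul (hfac s hs) (hexp s hs S hS) (abs_nonneg _) hM0
      _ = M := mul_one M
  · refine ⟨M * (1 * ((|α| * ∑ _i : Fin d, ∑ _j : Fin d, M * (‖Q‖ * M * M))
      + 2 * (∑ _i : Fin d, ∑ _j : Fin d, M * (|K| * M * M))
      + 2 * ∑ _i : Fin d, ∑ _j : Fin d, ∑ _k : Fin d, ∑ _l : Fin d,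
          M * M * ((|K| * M * M) * (‖Q‖ * M * M)))), by positivity, fun s hs S hS hSK => ?_⟩
    have hSK' : ‖S‖ ≤ |K| := hSK.trans (le_abs_self K)
    unfold cv dr
    rw [abs_mul, abs_mul]
    refine mul_le_mul (hfac s hs) (mul_le_mul (hexp s hs S hS) ?_ (abs_nonneg _) zero_le_one)
      (by positivity) hM0
    have b1 : |tq (psi T Q g u s) Q (fun i => T (1 - s) (g i))|
        ≤ ∑ _i : Fin d, ∑ _j : Fin d, M * (‖Q‖ * M * M) :=
      abs_tq_le Q le_rfl hM0 (hpsi s hs) (hg s hs) (hg s hs)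
    have b2 : |∑ i, ∑ j, psi T Q g u s i j * ⟪S (T (1 - s) (y i)), T (1 - s) (g j)⟫_ℝ|
        ≤ ∑ _i : Fin d, ∑ _j : Fin d, M * (|K| * M * M) :=
      abs_tq_le S hSK' hM0 (hpsi s hs) (hy s hs) (hg s hs)
    have b3 : |∑ i, ∑ j, ∑ k, ∑ l, psi T Q g u s i j * psi T Q g u s k l *
        (⟪S (T (1 - s) (g i)), T (1 - s) (g k)⟫_ℝ * ⟪Q (T (1 - s) (g j)), T (1 - s) (g l)⟫_ℝ)|
        ≤ ∑ _i : Fin d, ∑ _j : Fin d, ∑ _k : Fin d, ∑ _l : Fin d,
          M * M * ((|K| * M * M) * (‖Q‖ * M * M)) := by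
      refine (Finset.abs_sum_le_sum_abs _ _).trans (Finset.sum_le_sum fun i _ => ?_)
      refine (Finset.abs_sum_le_sum_abs _ _).trans (Finset.sum_le_sum fun j _ => ?_)
      refine (Finset.abs_sum_le_sum_abs _ _).trans (Finset.sum_le_sum fun k _ => ?_)
      refine (Finset.abs_sum_le_sum_abs _ _).trans (Finset.sum_le_sum fun l _ => ?_)
      rw [abs_mul, abs_mul, abs_mul]
      refine mul_le_mul (mul_le_mul (hpsi s hs i j) (hpsi s hs k l) (abs_nonneg _) hM0)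
        (mul_le_mul (abs_inner_le S hSK' hM0 (hg s hs i) (hg s hs k))
          (abs_inner_le Q le_rfl hM0 (hg s hs j) (hg s hs l)) (abs_nonneg _) (by positivity))
        (by positivity) (by positivity)
    refine (abs_add_le _ _).trans (add_le_add ((abs_sub _ _).trans (add_le_add ?_ ?_)) ?_)
    · rw [abs_neg, abs_mul]
      exact mul_le_mul_of_nonneg_left b1 (abs_nonneg _)
    · rw [abs_mul, abs_two]
      exact mul_le_mul_of_nonneg_left b2 zero_le_two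
    · rw [abs_mul, abs_two]
      exact mul_le_mul_of_nonneg_left b3 zero_le_two

end Pool.Agent.Q65.WI
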